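import Pool.Agent.CMG.Stmts

set_option autoImplicit false

open Set Topology MeasureTheory

namespace Pool.Agent.CMG.H19

open Pool.Agent.LSG Pool.Agent.CMG

theorem homs_closed (D : Type) [CommGroup D] :
    IsClosed ((homs D : Subgroup (D → Circle)) : Set (D → Circle)) := by
  have h : ((homs D : Subgroup (D → Circle)) : Set (D → Circle)) =
      ⋂ a : D, ⋂ b : D, {u : D → Circle | u (a * b) = u a * u b} := by
    ext u
    simp only [Set.mem_iInter]
    rfl
  rw [h]
  exact isClosed_iInter fun a => isClosed_iInter fun b =>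
    isClosed_eq (continuous_apply _) (by fun_prop)

theorem sur (hEva : EvaStmt) (hCnt : CntStmt) (hChr : ChrStmt) (hQmn : QmnStmt) : SurStmt := by
  intro K _ _ _ _ _ hcomm u
  haveI hct : Countable (K →ₜ* Circle) := hCnt K
  haveI : CompactSpace ↥(homs (K →ₜ* Circle)) :=
    isCompact_iff_compactSpace.mp (homs_closed (K →ₜ* Circle)).isCompact
  haveI : SecondCountableTopology Circle := EMetric.secondCountable_of_sigmaCompact Circle
  haveI : SecondCountableTopology ((K →ₜ* Circle) → Circle) := inferInstance
  haveI : SecondCountableTopology ↥(homs (K →ₜ* Circle)) :=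
    TopologicalSpace.Subtype.secondCountableTopology _
  haveI : TopologicalSpace.MetrizableSpace ↥(homs (K →ₜ* Circle)) :=
    TopologicalSpace.metrizableSpace_of_t3_secondCountable _
  let j : K →* ↥(homs (K →ₜ* Circle)) :=
    { toFun := fun k => ⟨fun χ => χ k, fun a b => rfl⟩
      map_one' := by
        apply Subtype.ext
        funext χ
        exact map_one χ
      map_mul' := by
        intro a b
        apply Subtype.ext
        funext χ
        exact map_mul χ a b }
  have hj : Continuous j := by
    apply Continuous.subtype_mk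
    exact continuous_pi fun χ => χ.continuous_toFun
  have hEcl : IsClosed ((j.range : Subgroup ↥(homs (K →ₜ* Circle))) :
      Set ↥(homs (K →ₜ* Circle))) := by
    rw [MonoidHom.coe_range]
    exact (isCompact_range hj).isClosed
  haveI hnorm : (j.range : Subgroup ↥(homs (K →ₜ* Circle))).Normal := by
    constructor
    intro n hn g
    have : g * n * g⁻¹ = n := by
      rw [mul_comm g n, mul_inv_cancel_right]
    rw [this]
    exact hn
  haveI : TopologicalSpace.MetrizableSpace (↥(homs (K →ₜ* Circle)) ⧸ j.range) :=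
    hQmn _ j.range hEcl
  by_contra hcon
  have hu : u ∉ j.range := by
    rintro ⟨k, hk⟩
    apply hcon
    refine ⟨k, fun χ => ?_⟩
    rw [← hk]
    rfl
  have hne : ((u : ↥(homs (K →ₜ* Circle)) ⧸ j.range)) ≠ 1 := by
    intro h
    exact hu ((QuotientGroup.eq_one_iff u).mp h)
  obtain ⟨χ, hχ⟩ := hChr (↥(homs (K →ₜ* Circle)) ⧸ j.range) (by
    intro a b
    obtain ⟨a, rfl⟩ := QuotientGroup.mk_surjective a
    obtain ⟨b, rfl⟩ := QuotientGroup.mk_surjective b
    rw [← QuotientGroup.mk_mul, ← QuotientGroup.mk_mul, mul_comm]) _ hne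
  obtain ⟨d, hd⟩ := hEva (K →ₜ* Circle)
    (fun v => χ (v : ↥(homs (K →ₜ* Circle)) ⧸ j.range))
    (χ.continuous_toFun.comp QuotientGroup.continuous_mk)
    (by
      intro v w
      rw [QuotientGroup.mk_mul, map_mul])
  have hd1 : d = 1 := by
    ext k
    have h1 := hd (j k)
    have h2 : ((j k : ↥(homs (K →ₜ* Circle))) : ↥(homs (K →ₜ* Circle)) ⧸ j.range) = 1 :=
      (QuotientGroup.eq_one_iff _).mpr ⟨k, rfl⟩
    have h3 : (j k).1 d = d k := rfl
    rw [← h3, ← h1]
    simp only [h2, map_one]
    rfl
  apply hχ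
  have h4 := hd u
  have h5 : u.1 1 = 1 := by
    have h6 := u.2 1 1
    rw [mul_one] at h6
    exact (mul_eq_left.mp h6.symm)
  rw [hd1, h5] at h4
  exact h4

end Pool.Agent.CMG.H19
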